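import Mathlib
import Pool.Agent.N173.BG.Stm

/-!
Project BG (helper173), part NEC (helper648): if `2A - 2A` contains a Bohr set as in Q1, then it contains
`K X - K X` for a large set `X`.
-/

set_option autoImplicit false

namespace Pool.Agent.N648.BG

open Finset Pool.Agent.TH858 Pool.Agent.TH858.GP Pool.Agent.N173.BG

lemma nint_le (a : ℝ) (z : ℤ) : CB.nint a ≤ |a - z| := by
  unfold CB.nint
  exact round_le a z

lemma nint_add_le (a b : ℝ) : CB.nint (a + b) ≤ CB.nint a + CB.nint b := by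
  have h := nint_le (a + b) (round a + round b)
  have h2 : a + b - ((round a + round b : ℤ) : ℝ) = (a - round a) + (b - round b) := by
    push_cast; ring
  rw [h2] at h
  exact h.trans (abs_add_le _ _)

lemma nint_neg_le (a : ℝ) : CB.nint (-a) ≤ CB.nint a := by
  have h := nint_le (-a) (-round a)
  have h2 : -a - ((-round a : ℤ) : ℝ) = -(a - round a) := by
    push_cast; ring
  rw [h2, abs_neg] at h
  exact h

lemma nn_add_le {N : ℕ} [NeZero N] (a b : ZMod N) : CB.nn (a + b) ≤ CB.nn a + CB.nn b := by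
  have h := CB.nint_eq_nn ((a.val : ℤ) + (b.val : ℤ)) (a + b) (by push_cast; simp)
  rw [← h]
  push_cast
  rw [add_div]
  exact nint_add_le _ _

lemma nn_neg_le {N : ℕ} [NeZero N] (a : ZMod N) : CB.nn (-a) ≤ CB.nn a := by
  have h := CB.nint_eq_nn (-(a.val : ℤ)) (-a) (by push_cast; simp)
  rw [← h]
  push_cast
  rw [neg_div]
  exact nint_neg_le _

lemma nn_zero {N : ℕ} [NeZero N] : CB.nn (0 : ZMod N) = 0 := by
  unfold CB.nn CB.nint
  simp

lemma nn_sum_le {N : ℕ} [NeZero N] {ι : Type*} (s : Finset ι) (f : ι → ZMod N) :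
    CB.nn (∑ i ∈ s, f i) ≤ ∑ i ∈ s, CB.nn (f i) := by
  classical
  induction s using Finset.induction_on with
  | empty => simp [nn_zero]
  | insert a s ha ih =>
    rw [sum_insert ha, sum_insert ha]
    exact (nn_add_le _ _).trans (by linarith)

lemma nn_KK {N : ℕ} [NeZero N] (K : ℕ) (X : Finset (ZMod N)) (γ : ZMod N) (δ : ℝ)
    (hX : ∀ y ∈ X, CB.nn (γ * y) ≤ δ) (x : ZMod N) (hx : x ∈ KK K X) : CB.nn (γ * x) ≤ 2 * K * δ := by
  obtain ⟨a, b, ha, hb, rfl⟩ := hx
  have h1 : γ * (∑ i, a i - ∑ i, b i) = ∑ i, γ * a i + -∑ i, γ * b i := by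
    rw [mul_sub, mul_sum, mul_sum, sub_eq_add_neg]
  rw [h1]
  have h2 := nn_add_le (∑ i, γ * a i) (-∑ i, γ * b i)
  have h3 := nn_neg_le (∑ i, γ * b i)
  have h4 := nn_sum_le univ (fun i => γ * a i)
  have h5 := nn_sum_le univ (fun i => γ * b i)
  have h6 : ∑ i : Fin K, CB.nn (γ * a i) ≤ K * δ := by
    have := sum_le_sum (s := univ) (fun (i : Fin K) _ => hX (a i) (ha i))
    simpa using this
  have h7 : ∑ i : Fin K, CB.nn (γ * b i) ≤ K * δ := by
    have := sum_le_sum (s := univ) (fun (i : Fin K) _ => hX (b i) (hb i))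
    simpa using this
  linarith


lemma kfac {K M : ℝ} (hK0 : 0 < K) (hM0 : 0 < M) (hK2 : K ≤ 2 * M) : Real.log K ≤ Real.log 2 + Real.log M := by
  rw [← Real.log_mul (by norm_num) hM0.ne']
  exact Real.log_le_log hK0 hK2

/-- The real inequality. -/
lemma real_ineq (C₁ c₁ : ℝ) (hC₁ : 0 < C₁) (hc₁ : 0 < c₁) : ∃ C : ℝ, 1 ≤ C ∧ ∀ l ε K : ℝ, 0.69 < l → 0 < ε →
    c₁ / l ≤ ε → 1 ≤ K → Real.log K ≤ Real.log 2 + 40 * (Real.log C + Real.log (2 + l)) →
    C₁ * l * Real.log (4 * K / min ε 1) ≤ C * l * Real.log (2 + l) := by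
  obtain ⟨B, hB⟩ : ∃ B : ℝ, B = Real.log 8 + Real.log (1 / c₁ + 1) := ⟨_, rfl⟩
  have hb0 : 0 < 1 / c₁ := by positivity
  have hB0 : 0 ≤ B := by
    have h1 : 0 ≤ Real.log 8 := Real.log_nonneg (by norm_num)
    have h2 : 0 ≤ Real.log (1 / c₁ + 1) := Real.log_nonneg (by linarith)
    linarith
  obtain ⟨t, ht⟩ : ∃ t : ℝ, t = 4 * C₁ * (80 + B) + 1 := ⟨_, rfl⟩
  have hCB : 0 ≤ C₁ * B := by positivity
  have ht1 : 1 ≤ t := by rw [ht]; linarith
  have ht0 : 0 < t := by linarith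
  have htB : 4 * (C₁ * (80 + B)) ≤ t := by rw [ht]; linarith
  have ht164 : 164 * C₁ ≤ t := by rw [ht]; linarith
  refine ⟨t ^ 2, one_le_pow₀ ht1, ?_⟩
  intro l ε K hl hε hcε hK1 hKlog
  have hl0 : 0 < l := by linarith
  have h2l : 0 < 2 + l := by linarith
  have hlog2 : (0.69 : ℝ) < Real.log 2 := by linarith [Real.log_two_gt_d9]
  obtain ⟨L, hL⟩ : ∃ L : ℝ, L = Real.log (2 + l) := ⟨_, rfl⟩
  rw [← hL] at hKlog ⊢
  have hL1 : 0.69 < L := by
    have : Real.log 2 ≤ L := by rw [hL]; exact Real.log_le_log (by norm_num) (by linarith)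
    linarith
  have hK0 : 0 < K := by linarith
  obtain ⟨e, he⟩ : ∃ e : ℝ, e = min ε 1 := ⟨_, rfl⟩
  rw [← he]
  have he0 : 0 < e := by rw [he]; exact lt_min hε one_pos
  have he1 : e ≤ 1 := by rw [he]; exact min_le_right _ _
  have h3 : 1 / e ≤ (1 / c₁ + 1) * (2 + l) := by
    rcases le_total ε 1 with h | h
    · have e1 : e = ε := by rw [he]; exact min_eq_left h
      rw [e1]
      have e2 : 1 / ε ≤ l / c₁ := by
        rw [div_le_div_iff₀ hε hc₁]
        rw [div_le_iff₀ hl0] at hcε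
        linarith
      have e3 : l / c₁ ≤ (1 / c₁ + 1) * (2 + l) := by
        have e4 : (1 / c₁ + 1) * (2 + l) = l / c₁ + (2 / c₁ + 2 + l) := by ring
        rw [e4]
        have e5 : 0 < 2 / c₁ := by positivity
        linarith
      linarith
    · have e1 : e = 1 := by rw [he]; exact min_eq_right h
      rw [e1]
      have e2 : 0 ≤ 1 / c₁ * (2 + l) := by positivity
      have e3 : (1 / c₁ + 1) * (2 + l) = 1 / c₁ * (2 + l) + (2 + l) := by ring
      rw [e3]
      linarith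
  have h4 : Real.log (4 * K / e) ≤ B + 40 * Real.log (t ^ 2) + 41 * L := by
    have e0 : 4 * K / e = 4 * K * (1 / e) := by ring
    rw [e0, Real.log_mul (by positivity) (by positivity), Real.log_mul (by norm_num) hK0.ne']
    have e1 : Real.log (1 / e) ≤ Real.log (1 / c₁ + 1) + L := by
      rw [hL, ← Real.log_mul (by positivity) h2l.ne']
      exact Real.log_le_log (by positivity) h3
    have e2 : Real.log 8 = Real.log 4 + Real.log 2 := by
      rw [← Real.log_mul (by norm_num) (by norm_num)]; norm_num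
    rw [hB]
    linarith
  have h6 : Real.log (t ^ 2) ≤ 2 * t := by
    rw [Real.log_pow]
    have := Real.log_le_sub_one_of_pos ht0
    push_cast
    linarith
  have h7 : Real.log (4 * K / e) ≤ B + 80 * t + 41 * L := by linarith
  have e1 : C₁ * (B + 80 * t) ≤ t * t / 4 := by
    have e3 : B + 80 * t ≤ (80 + B) * t := by
      have : 0 ≤ B * (t - 1) := mul_nonneg hB0 (by linarith)
      linarith
    have e4 : C₁ * (B + 80 * t) ≤ C₁ * ((80 + B) * t) := mul_le_mul_of_nonneg_left e3 hC₁.le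
    have e5 : 4 * (C₁ * (80 + B)) * t ≤ t * t := mul_le_mul_of_nonneg_right htB ht0.le
    linarith
  have e2 : C₁ * 41 ≤ t * t / 4 := by
    have e3 : 1 * t ≤ t * t := mul_le_mul_of_nonneg_right ht1 ht0.le
    linarith
  have h8 : C₁ * (B + 80 * t + 41 * L) ≤ t ^ 2 * L := by
    have e3 : C₁ * 41 * L ≤ t * t / 4 * L := mul_le_mul_of_nonneg_right e2 (by linarith)
    have e4 : t * t / 2 * 0.69 ≤ t * t / 2 * L := mul_le_mul_of_nonneg_left hL1.le (by positivity)
    have e5 : 0 ≤ t * t := by positivity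
    have e6 : 0 ≤ t * t * L := by positivity
    have e7 : t ^ 2 * L = t * t * L := by ring
    rw [e7]
    have e8 : C₁ * (B + 80 * t + 41 * L) = C₁ * (B + 80 * t) + C₁ * 41 * L := by ring
    rw [e8]
    linarith
  calc C₁ * l * Real.log (4 * K / e) ≤ C₁ * l * (B + 80 * t + 41 * L) :=
        mul_le_mul_of_nonneg_left h7 (by positivity)
    _ = l * (C₁ * (B + 80 * t + 41 * L)) := by ring
    _ ≤ l * (t ^ 2 * L) := mul_le_mul_of_nonneg_left h8 hl0.le
    _ = t ^ 2 * l * L := by ring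

theorem t_NEC (h : S_SIZE) : S_NEC := by
  intro C₁ c₁ hC₁ hc₁
  obtain ⟨C, hC1, hC⟩ := real_ineq C₁ c₁ hC₁ hc₁
  refine ⟨C, hC1, ?_⟩
  intro N _ A hA hd hyp
  obtain ⟨Γ, ε, hε, hΓ, hcε, hB2⟩ := hyp
  have hN0 : (0 : ℝ) < N := by exact_mod_cast Nat.pos_of_ne_zero (NeZero.ne N)
  have hA0 : (0 : ℝ) < A.card := by exact_mod_cast hA.card_pos
  have hNA : 2 ≤ (N : ℝ) / A.card := by
    rw [div_le_iff₀ hN0] at hd
    rw [le_div_iff₀ hA0]
    linarith
  generalize hl : Real.log ((N : ℝ) / A.card) = l at *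
  have hlog2 : (0.69 : ℝ) < Real.log 2 := by linarith [Real.log_two_gt_d9]
  have hl1 : 0.69 < l := by
    have : Real.log 2 ≤ l := by rw [← hl]; exact Real.log_le_log (by norm_num) hNA
    linarith
  have hl0 : 0 < l := by linarith
  have h2l : 0 < 2 + l := by linarith
  have hC0 : 0 < C := by linarith
  have hb1 : 1 ≤ C * (2 + l) := by
    have : 1 * 1 ≤ C * (2 + l) := mul_le_mul hC1 (by linarith) (by norm_num) hC0.le
    linarith
  have hM1 : 1 ≤ (C * (2 + l)) ^ 40 := one_le_pow₀ hb1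
  have hMlog : Real.log ((C * (2 + l)) ^ 40) = 40 * (Real.log C + Real.log (2 + l)) := by
    rw [Real.log_pow, Real.log_mul hC0.ne' h2l.ne']
    norm_num
  generalize hM : (C * (2 + l)) ^ 40 = M at *
  clear hM
  have hM0 : 0 < M := by linarith
  have hKM : M ≤ (⌈M⌉₊ : ℝ) := Nat.le_ceil M
  have hK2 : (⌈M⌉₊ : ℝ) ≤ 2 * M := by
    have := Nat.ceil_lt_add_one hM0.le
    linarith
  generalize hKd : ⌈M⌉₊ = K at *
  clear hKd
  have hK0 : (0 : ℝ) < K := by linarith
  have hK1 : (1 : ℝ) ≤ K := by linarith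
  have hKlog := kfac hK0 hM0 hK2
  rw [hMlog] at hKlog
  have hmain := hC l ε K hl1 hε hcε hK1 hKlog
  have hε'0 : 0 < min ε 1 := lt_min hε one_pos
  have hε'1 : min ε 1 ≤ 1 := min_le_right _ _
  have hε'ε : min ε 1 ≤ ε := min_le_left _ _
  generalize hε' : min ε 1 = e at *
  obtain ⟨δ, hδ⟩ : ∃ δ : ℝ, δ = e / (2 * K) := ⟨_, rfl⟩
  have hδ0 : 0 < δ := by rw [hδ]; positivity
  have hδ1 : δ ≤ 1 := by
    rw [hδ, div_le_one (by positivity)]
    linarith
  have hsize := h N Γ δ hδ0 hδ1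
  refine ⟨univ.filter fun x : ZMod N => ∀ γ ∈ Γ, CB.nn (γ * x) ≤ δ, ?_, ?_, ?_⟩
  · refine ⟨0, ?_⟩
    rw [mem_filter]
    refine ⟨mem_univ _, fun γ _ => ?_⟩
    rw [mul_zero, nn_zero]
    exact hδ0.le
  · refine le_trans ?_ hsize
    refine mul_le_mul_of_nonneg_left ?_ hN0.le
    have hδ2 : 0 < δ / 2 := by positivity
    have h1 : (δ / 2) ^ Γ.card = Real.exp (-(Γ.card * Real.log (2 / δ))) := by
      have h2 : Real.log (2 / δ) = -Real.log (δ / 2) := by
        rw [← Real.log_inv, inv_div]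
      rw [h2, mul_neg, neg_neg, mul_comm, Real.exp_mul, Real.exp_log hδ2, Real.rpow_natCast]
    rw [h1]
    apply Real.exp_le_exp.mpr
    apply neg_le_neg
    have h5 : 2 / δ = 4 * K / e := by
      rw [hδ]; field_simp; norm_num
    have h9 : 0 ≤ Real.log (2 / δ) := Real.log_nonneg (by
      rw [le_div_iff₀ hδ0]; linarith)
    calc (Γ.card : ℝ) * Real.log (2 / δ) ≤ (C₁ * l) * Real.log (2 / δ) :=
          mul_le_mul_of_nonneg_right hΓ h9
      _ ≤ C * l * Real.log (2 + l) := by rw [h5]; exact hmain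
  · intro x hx
    apply hB2
    intro γ hγ
    have h1 := nn_KK K (univ.filter fun x : ZMod N => ∀ γ ∈ Γ, CB.nn (γ * x) ≤ δ) γ δ
      (fun y hy => (mem_filter.mp hy).2 γ hγ) x hx
    have h2 : 2 * (K : ℝ) * δ = e := by
      rw [hδ]; field_simp
    linarith

end Pool.Agent.N648.BG
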